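import Pool.Agent.Helper86.TC8.Stmts

/-!
# CNTID: counting the random bits of a tree
-/

set_option autoImplicit false

namespace Pool.Agent.Helper78.TC8

open Pool.Agent.Helper86.TC8

/-- offset of a vertex reached by `c` with state `r` -/
def off : L → St → ℕ
  | .b, _ => 2
  | .n, r => if r.P then 1 else 2
  | .f, r => if r.P then 1 else 0

/-- number of fresh segments of a child reached by `c` -/
def nod : L → ℕ
  | .b => 1
  | .n => 0
  | .f => 1

/-- share of the child `c` in the offset of the parent -/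
def sh : L → St → ℕ
  | .b, x => if x.P then 1 else 2
  | .n, x => if x.P then 1 else 0
  | .f, _ => 0

theorem kn_sh : ∀ (c : L) (x r : St), kn c x r ≠ 0 →
    kn c x r * 2 ^ (off c r + nod c) = 4 * 2 ^ sh c x := by
  decide

theorem off_sh (a : L) (x : St) : off a x = sh (k1 a) x + sh (k2 a) x := by
  cases a <;> simp only [off, sh, k1, k2] <;> cases x.P <;> rfl

theorem kw_sh (c : L) (x r : St) (h : kw c x r ≠ 0) :
    (1 / 2 : ℝ) ^ (off c r + nod c) = (1 / 2) ^ sh c x * kw c x r := by
  have h0 : kn c x r ≠ 0 := by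
    intro h0
    apply h
    unfold kw
    rw [h0]; simp
  have h1 : ((kn c x r : ℕ) : ℝ) * 2 ^ (off c r + nod c) = 4 * 2 ^ sh c x := by
    exact_mod_cast kn_sh c x r h0
  unfold kw
  rw [one_div, inv_pow, inv_pow]
  have h2 : (2 : ℝ) ^ (off c r + nod c) ≠ 0 := by positivity
  have h3 : (2 : ℝ) ^ sh c x ≠ 0 := by positivity
  field_simp
  linarith

theorem nodeF_length (c : L) (W : List L) (st : St) : (nodeF c W st).length = nod c := by
  cases c <;> rfl

theorem leafFree_length (a : L) (W : List L) (st : St) : (leafFree a W st).length = off a st := by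
  cases a <;> simp only [leafFree, off] <;> cases st.P <;> rfl

theorem rootFree_length (a : L) (st : St) :
    (rootF a st).length + (rootFree a st).length + off a st = 4 := by
  cases a <;> simp only [rootF, rootFree, off] <;> cases st.P <;> rfl

theorem main : ∀ (d : ℕ) (a : L) (W : List L) (t : Tr d), wtr d a t ≠ 0 →
    (1 / 2 : ℝ) ^ ((fresh d a W t).length + (freeL d a W t).length) =
      (1 / 2) ^ off a (root d t) * wtr d a t
  | 0, a, W, t, _ => by
    show (1 / 2 : ℝ) ^ (([] : List (List L × Bool)).length + (leafFree a W t).length) =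
      (1 / 2) ^ off a t * 1
    rw [leafFree_length, List.length_nil, zero_add, mul_one]
  | d + 1, a, W, t, h => by
    have e : wtr (d + 1) a t = kw (k1 a) t.1 (root d t.2.1) * kw (k2 a) t.1 (root d t.2.2) *
      wtr d (k1 a) t.2.1 * wtr d (k2 a) t.2.2 := rfl
    have hr : root (d + 1) t = t.1 := rfl
    rw [e] at h ⊢
    rw [hr, off_sh]
    have h1 : kw (k1 a) t.1 (root d t.2.1) ≠ 0 := fun h' => h (by rw [h']; ring)
    have h2 : kw (k2 a) t.1 (root d t.2.2) ≠ 0 := fun h' => h (by rw [h']; ring)
    have h3 : wtr d (k1 a) t.2.1 ≠ 0 := fun h' => h (by rw [h']; ring)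
    have h4 : wtr d (k2 a) t.2.2 ≠ 0 := fun h' => h (by rw [h']; ring)
    have i1 := main d (k1 a) (k1 a :: W) t.2.1 h3
    have i2 := main d (k2 a) (k2 a :: W) t.2.2 h4
    have j1 := kw_sh _ _ _ h1
    have j2 := kw_sh _ _ _ h2
    have l1 : (fresh (d + 1) a W t).length = (nod (k1 a) + (fresh d (k1 a) (k1 a :: W) t.2.1).length) +
        (nod (k2 a) + (fresh d (k2 a) (k2 a :: W) t.2.2).length) := by
      show ((nodeF (k1 a) W (root d t.2.1) ++ fresh d (k1 a) (k1 a :: W) t.2.1) ++
        (nodeF (k2 a) W (root d t.2.2) ++ fresh d (k2 a) (k2 a :: W) t.2.2)).length = _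
      simp only [List.length_append, nodeF_length]
    have l2 : (freeL (d + 1) a W t).length = (freeL d (k1 a) (k1 a :: W) t.2.1).length +
        (freeL d (k2 a) (k2 a :: W) t.2.2).length := by
      show (freeL d (k1 a) (k1 a :: W) t.2.1 ++ freeL d (k2 a) (k2 a :: W) t.2.2).length = _
      simp only [List.length_append]
    rw [l1, l2]
    have e1 : (1 / 2 : ℝ) ^ ((nod (k1 a) + (fresh d (k1 a) (k1 a :: W) t.2.1).length) +
        (nod (k2 a) + (fresh d (k2 a) (k2 a :: W) t.2.2).length) +
        ((freeL d (k1 a) (k1 a :: W) t.2.1).length + (freeL d (k2 a) (k2 a :: W) t.2.2).length)) =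
        (1 / 2) ^ nod (k1 a) * (1 / 2) ^ nod (k2 a) *
        (1 / 2) ^ ((fresh d (k1 a) (k1 a :: W) t.2.1).length +
          (freeL d (k1 a) (k1 a :: W) t.2.1).length) *
        (1 / 2) ^ ((fresh d (k2 a) (k2 a :: W) t.2.2).length +
          (freeL d (k2 a) (k2 a :: W) t.2.2).length) := by
      simp only [← pow_add]
      congr 1
      omega
    rw [e1, i1, i2]
    rw [pow_add] at j1 j2
    rw [pow_add]
    calc (1 / 2 : ℝ) ^ nod (k1 a) * (1 / 2) ^ nod (k2 a) *
          ((1 / 2) ^ off (k1 a) (root d t.2.1) * wtr d (k1 a) t.2.1) *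
          ((1 / 2) ^ off (k2 a) (root d t.2.2) * wtr d (k2 a) t.2.2)
        = ((1 / 2 : ℝ) ^ off (k1 a) (root d t.2.1) * (1 / 2) ^ nod (k1 a)) *
          ((1 / 2) ^ off (k2 a) (root d t.2.2) * (1 / 2) ^ nod (k2 a)) *
          (wtr d (k1 a) t.2.1 * wtr d (k2 a) t.2.2) := by ring
      _ = _ := by rw [j1, j2]; ring

theorem st_CNTID : ST_CNTID := by
  intro R a t h
  have h1 := main R a [a] t h
  have l1 : (freshAll R a t).length = (rootF a (root R t)).length + (fresh R a [a] t).length := by
    unfold freshAll; rw [List.length_append]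
  have l2 : (freeAll R a t).length = (rootFree a (root R t)).length + (freeL R a [a] t).length := by
    unfold freeAll; rw [List.length_append]
  have h2 := rootFree_length a (root R t)
  rw [← pow_add, l1, l2]
  have e : (rootF a (root R t)).length + (fresh R a [a] t).length +
      ((rootFree a (root R t)).length + (freeL R a [a] t).length) =
      ((rootF a (root R t)).length + (rootFree a (root R t)).length) +
      ((fresh R a [a] t).length + (freeL R a [a] t).length) := by omega
  rw [e, pow_add, h1, ← mul_assoc, ← pow_add, h2]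
  norm_num

end Pool.Agent.Helper78.TC8
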